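import Pool.Agent.Lib.MP_a9eb04.Defs
import Pool.Agent.Lib.MP_a9eb04.Main

/-!
# The best constant `K_p = p^p / (p-1)^(p-1)` in the isocapacitary inequality on trees
-/

set_option autoImplicit false

open MeasureTheory Pool.Agent.Lib.MP_a9eb04
open scoped ENNReal NNReal

namespace Pool.Agent.Results.MP_a9eb04_an.SharpConstant

/-- For every `1 < p < ∞` the smallest `K` with `[μ] ≤ K [[μ]]_c` for every locally finite tree,
every edge weight `π` and every positive Borel measure `μ` is `p^p / (p-1)^(p-1)`. -/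
theorem result (p : ℝ) (hp : 1 < p) :
    IsLeast {K : ℝ≥0∞ | ∀ (T : LFTree) (π : T.E → ℝ≥0) (μ : Measure T.Point),
      T.hardyConst p π μ ≤ K * T.isoConst p π μ}
      (ENNReal.ofReal (p ^ p / (p - 1) ^ (p - 1))) :=
  isLeast_sharpK p hp

end Pool.Agent.Results.MP_a9eb04_an.SharpConstant
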